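import Pool.Agent.Lib.ARC.FinNeg
import Pool.Agent.Lib.GEL.ArcNat

/-!
# ARC.FinGel: from the arc to a nontrivial natural uniform algebra on `[0,1]`
(the form of the frozen statement `S06821`)

`A = PE γ` is the uniform closure of the polynomials on the curve; it is closed, separates the points, is natural
(`GEL.PE_natural`), and does not contain the function `t ↦ 2 t - 1` (`no_approx`).
-/

set_option autoImplicit false

open Topology

namespace Pool.Agent.Lib.ARC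

theorem gelfand_of_arc {γ : unitInterval → (Fin 3 → ℂ)} (hc : Continuous γ)
    (hinj : Function.Injective γ)
    (hpc : ∀ v, InHull (Set.range γ) v → v ∈ Set.range γ)
    (hd : ∀ (P : MvPolynomial (Fin 3) ℂ) (M : ℝ),
      (∀ t : unitInterval, ‖MvPolynomial.eval (γ t) P‖ ≤ M) →
        ‖MvPolynomial.eval (γ 1) P - MvPolynomial.eval (γ 0) P‖ ≤ 1 / 2 * M) :
    ∃ A : Subalgebra ℂ C(unitInterval, ℂ),
      IsClosed (A : Set C(unitInterval, ℂ)) ∧
      (∀ x y : unitInterval, x ≠ y → ∃ f ∈ A, f x ≠ f y) ∧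
      A ≠ ⊤ ∧
      ∀ φ : A →ₐ[ℂ] ℂ, ∃ x : unitInterval, ∀ f : A, φ f = (f : C(unitInterval, ℂ)) x := by
  have hnat : Pool.Agent.Lib.GEL.Natural (Pool.Agent.Lib.GEL.PE γ hc) :=
    Pool.Agent.Lib.GEL.PE_natural hc
      (fun z hz => hpc z fun P M hPM => hz P M fun t => hPM _ ⟨t, rfl⟩)
  refine ⟨Pool.Agent.Lib.GEL.PE γ hc, hnat.1, Pool.Agent.Lib.GEL.PE_sep hc hinj, ?_, hnat.2⟩
  intro htop
  let g : C(unitInterval, ℂ) := ⟨fun t => ((2 * (t : ℝ) - 1 : ℝ) : ℂ), by fun_prop⟩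
  have hg : g ∈ Pool.Agent.Lib.GEL.PE γ hc := by rw [htop]; exact Algebra.mem_top
  refine no_approx hd g ?_ ?_ ?_ ((Pool.Agent.Lib.GEL.PE_mem_iff hc).mp hg)
  · intro t
    show ‖((2 * (t : ℝ) - 1 : ℝ) : ℂ)‖ ≤ 1
    rw [Complex.norm_real, Real.norm_eq_abs, abs_le]
    have h0 := t.2.1
    have h1 := t.2.2
    constructor <;> linarith
  · show ((2 * ((0 : unitInterval) : ℝ) - 1 : ℝ) : ℂ) = -1
    simp
  · show ((2 * ((1 : unitInterval) : ℝ) - 1 : ℝ) : ℂ) = 1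
    simp
    norm_num

end Pool.Agent.Lib.ARC
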